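import Pool.Agent.R958.PTC.Escape

/-!
# MP_37d2f2_pr: escape of resources with finite mean, all dimensions `d ≥ 3`

For every `d ≥ 3` there is a translation-invariant initial configuration with
`0 < E[C_0(x)] < ∞` and `C_n(x) = 0` for all large `n` almost surely, so `C_∞ = 0` and
`E[C_∞(x)] = 0 < E[C_0(x)] < ∞`.

The definitions are in `Pool/Agent/R958/PTC/Model.lean`; the construction is that of
MP_81329c_pr/FiniteMeanParentTransfer.
-/

open MeasureTheory Filter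
open scoped ENNReal

namespace Pool.Agent.Results.MP_37d2f2_pr.EscapeFiniteMean

open PTC

theorem result (d : ℕ) (hd : 3 ≤ d) :
    ∃ (Ω : Type) (_ : MeasurableSpace Ω) (μ : Measure Ω) (_ : IsProbabilityMeasure μ)
      (C0 : Ω → (Fin d → ℤ) → ℝ≥0∞),
      Measurable C0 ∧ TranslationInvariant μ C0 ∧
      (∀ᵐ p ∂(μ.prod (choiceLaw d)), ∀ x, ∀ᶠ n in atTop, run (C0 p.1) p.2 n x = 0) ∧
      ∀ x, 0 < ∫⁻ ω, C0 ω x ∂μ ∧ ∫⁻ ω, C0 ω x ∂μ < ⊤ :=
  escape_main d hd

end Pool.Agent.Results.MP_37d2f2_pr.EscapeFiniteMean
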